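import Pool.Agent.N510.AP.Amal

/-!
# Polynomial automorphisms of the plane with a fixed point, and the Farrell–Jones conjecture

`C` is any class of groups with the closure properties `ClosedE C` which contains the solvable
groups, as is known for the class of the groups that satisfy the A-theoretic Farrell–Jones
conjecture with coefficients and finite wreath products.

Let `R` be a commutative domain of characteristic zero. The group of the automorphisms of the
`R`-algebra `R[x, y]` that fix the origin is in `C` if and only if `GL₂(R)` is in `C`.

Outline of the proof. Let `k` be the algebraic closure of the field of fractions of `R`. By the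
theorem of Jung and van der Kulk the group of the automorphisms of `k[x, y]` that fix the origin is
the increasing union of the groups `G_m` generated by `GL₂(k)` and the group `B_m` of the triangular
automorphisms `(αx + P(y), βy)`, `deg P ≤ m + 1`, `P(0) = 0`, and a degree argument shows that `G_m`
is their amalgam. The homomorphism of `G_m` to the group `P_m` of the jets of order `m + 1` at the
origin is injective on `GL₂(k)` and on `B_m`. Therefore `G_m` embeds in `F(X) ⋊ P_m` for a set `X`
on which `P_m` acts, and the elements of `G_m` which are defined over `R` are mapped to
`F(X) ⋊ P` where `P` is the group of the jets over `R`, an iterated extension of a subgroup of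
`GL₂(R)` by abelian groups.
-/

set_option autoImplicit false

namespace Pool.Agent.Results.MP_63c928_gt.AutomorphismsAtAPoint

open Pool.Agent.Y110.FJ (ClosedE)
open MvPolynomial

/-- the group of the automorphisms of the `R`-algebra `R[x, y]` which fix the origin: `g f` and `f`
have the same value at the origin for all `f` -/
def fixOrigin (R : Type) [CommRing R] :
    Subgroup (MvPolynomial (Fin 2) R ≃ₐ[R] MvPolynomial (Fin 2) R) where
  carrier := {g | ∀ f, constantCoeff (g f) = constantCoeff f}
  mul_mem' := (Pool.Agent.N510.AP.Zo (Fin 2) R).mul_mem'
  one_mem' := (Pool.Agent.N510.AP.Zo (Fin 2) R).one_mem'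
  inv_mem' := (Pool.Agent.N510.AP.Zo (Fin 2) R).inv_mem'

theorem result (C : ∀ (G : Type) [Group G], Prop) (hC : ClosedE C)
    (hsol : ∀ (S : Type) [Group S], Group.IsSolvable S → C S)
    (R : Type) [CommRing R] [IsDomain R] [CharZero R] :
    C (fixOrigin R) ↔ C (GL (Fin 2) R) :=
  Pool.Agent.N510.AP.main_iff hC hsol

end Pool.Agent.Results.MP_63c928_gt.AutomorphismsAtAPoint
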