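import Pool.Agent.N77.CX.Main

/-!
# Extensions by Coxeter groups of arbitrary rank and the Farrell–Jones conjecture

`C` is any class of groups with the closure properties `ClosedE C` which contains the Coxeter groups
of finite rank. This is known for the class of the groups that satisfy the Farrell–Jones conjecture
for `A`-theory with coefficients and finite wreath products (finitely generated Coxeter groups act
properly and cocompactly on the CAT(0) complex of Davis).

Let `N` be a normal subgroup of a group `G` which is a Coxeter group with Coxeter matrix `M` over an
arbitrary, possibly infinite, index set `B`. Let `Q` be a subgroup of `G` with `G = N Q` which acts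
on `B` by automorphisms of the Coxeter matrix, such that conjugation by `q ∈ Q` maps the simple
reflection of `b` to the simple reflection of `q b`. If `G ⧸ N` is in `C` then `G` is in `C`.

For example `G` may be the semidirect product of a Coxeter group of infinite rank and any group in
`C` which acts by automorphisms of the Coxeter diagram.

Outline of the proof. By the extension criterion and directed colimits it suffices to embed the
subgroup generated by a finite set `E ⊆ N` and `g E g⁻¹` in a group in `C` in which the conjugation
by `g` on `E` is induced by an inner automorphism. Write `g = n q`. The finite partial automorphism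
of `M` given by `q` extends to an automorphism `τ` of a larger finite Coxeter matrix `M'`: the
extension property of finite labelled graphs, proved as for Hrushovski's theorem with the index set
`S × (S → ℤ/n)` and the labels `ξ (y) + η (x)` modulo `n`. Coxeter groups embed along embeddings of
Coxeter matrices, by the geometric representation, and one uses the mapping torus of the
automorphism of finite order of the Coxeter group of `M'` given by `τ`.
-/

set_option autoImplicit false

namespace Pool.Agent.Results.MP_63c928_gt.CoxeterKernels

open Pool.Agent.Y110.FJ (ClosedE)

theorem result (C : ∀ (G : Type) [Group G], Prop) (hC : ClosedE C)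
    (hcox : ∀ (S : Type) (_ : Finite S) (A : CoxeterMatrix S), C A.Group)
    (G B : Type) [Group G] (N Q : Subgroup G) [N.Normal] [MulAction Q B]
    (M : CoxeterMatrix B) (cs : CoxeterSystem M N) (hNQ : N ⊔ Q = ⊤)
    (hM : ∀ (q : Q) (b b' : B), M (q • b) (q • b') = M b b')
    (hconj : ∀ (q : Q) (b : B),
      (q : G) * (cs.simple b : G) * (q : G)⁻¹ = (cs.simple (q • b) : G))
    (hQ : C (G ⧸ N)) : C G :=
  Pool.Agent.N77.CX.cox_main cs hC hcox Q hNQ hM hconj hQ

end Pool.Agent.Results.MP_63c928_gt.CoxeterKernels
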