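import Pool.Agent.N510.GR.Grad

/-!
# Groups of two by two matrices over graded rings and the Farrell–Jones conjecture for A-theory

`C` is any class of groups with the closure properties `ClosedE C` which contains the solvable
groups, as is known for the class of the groups that satisfy the A-theoretic Farrell–Jones
conjecture with coefficients and finite wreath products. The rings need not be commutative.

1. Let `D` be a division ring, `T` a ring which embeds in the polynomial ring `D[X]` (the variable
   is central), and `T₀ ⊆ D` the ring of the constant coefficients of the elements of `T`. If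
   `GL₂(T₀)` is in `C` then `GL₂(T)` is in `C`.
2. Let `R = ⨁ Rₙ` be an `ℕ`-graded ring with a homomorphism to a division ring which is injective
   on every `Rₙ` (e.g. a graded ring that embeds in a division ring). Then `GL₂(R)` is in `C` if and
   only if `GL₂(R₀)` is in `C`.

Outline of the proof. The ring `D[X]` has a degree function with weak algorithm, so `GL₂(D[X])` is
the increasing union of the amalgams `G_m` of `GL₂(D)` and the group of the upper triangular
matrices of degree `≤ m`, and the reduction modulo `X ^ (m + 1)` embeds `G_m` in `F(Y) ⋊ P` where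
`P = GL₂(D[X] / X ^ (m + 1))` acts on the set `Y`. The elements of `GL₂(T) ∩ G_m` are mapped to
`F(Y) ⋊ P₀` where `P₀ = GL₂(T / (T ∩ X ^ (m + 1) D[X]))`, an iterated extension of `GL₂(T₀)` by
abelian kernels. Part 2 follows from part 1 for the homogenization `Σ xₙ ↦ Σ j(xₙ) Xⁿ`.
-/

set_option autoImplicit false

namespace Pool.Agent.Results.MP_63c928_gt.GradedRings

open Pool.Agent.Y110.FJ (ClosedE)
open Polynomial

theorem result (C : ∀ (G : Type) [Group G], Prop) (hC : ClosedE C)
    (hsol : ∀ (S : Type) [Group S], Group.IsSolvable S → C S) (D : Type) [DivisionRing D] :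
    (∀ (T : Type) [Ring T] (ρ : T →+* D[X]), Function.Injective ρ →
      C ((Matrix (Fin 2) (Fin 2) ((constantCoeff : D[X] →+* D).comp ρ).range)ˣ) →
      C ((Matrix (Fin 2) (Fin 2) T)ˣ)) ∧
    (∀ (R : Type) [Ring R] (𝒜 : ℕ → AddSubgroup R) [GradedRing 𝒜] (j : R →+* D),
      (∀ n, ∀ x ∈ 𝒜 n, j x = 0 → x = 0) →
      (C ((Matrix (Fin 2) (Fin 2) R)ˣ) ↔ C ((Matrix (Fin 2) (Fin 2) (𝒜 0))ˣ))) :=
  ⟨fun _ _ ρ hρ h => Pool.Agent.N510.GR.sub_poly ρ hC hsol hρ h,
    fun _ _ 𝒜 _ j hj => Pool.Agent.N510.GR.graded 𝒜 j hC hsol hj⟩

end Pool.Agent.Results.MP_63c928_gt.GradedRings
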