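import Pool.Agent.N509.TX.VcE

/-!
# Graphs of groups with virtually cyclic edge groups and the Farrell-Jones conjecture

`C` is any class of groups with the closure properties `ClosedE C` which contains the metabelian groups
and satisfies `AcylF C`: a finitely generated group that acts on a tree without inversions, such that
for some `k` and `n` the pointwise stabilizers of the paths of length at least `k` have at most `n`
elements, is in `C` if the vertex stabilizers are in `C`. All this is known for the class of the groups
that satisfy the Full Farrell-Jones Conjecture (`AcylF` is a theorem of Knopf).

Let `G` act on a tree with vertex stabilizers in `C` and virtually cyclic edge stabilizers (the condition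
needed is that the elements of infinite order of an edge stabilizer are commensurable and that its
torsion subgroups are of bounded order, `Er` and `Et`; see `virtually_cyclic` below). Let `L` be a normal
subgroup of `G` with `G / L` in `C` (for instance `L = G`). Then `G` is in `C` if each element `x` of
infinite order which fixes an edge has one of the following properties.

* `Bl C T x`: `x` is balanced, that is `g x ^ m g⁻¹ = x ^ n` with `m ≠ 0` implies `|m| = |n|`; and for
  each edge `v u` fixed by a power `t = x ^ n ≠ 1` the index of `⟨t⟩` in the edge stabilizer is finite,
  and the groups `S / ⟨t⟩`, for all groups `S` of elements which fix `v` and commute with `t ∈ S`, embed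
  in groups in `C`.
* `Hd T L x`: for each edge `v u` fixed by a power `t = x ^ n ≠ 1`, and for all groups `S ≤ L` of
  elements which fix `v` and commute with nonzero powers of `x`, `t` is not in `[S, S]`.

Outline of the proof. One may assume that `G` is finitely generated and acts with finitely many orbits
of edges. Two edges at a vertex are equivalent if they are equal or the intersection of their
stabilizers is infinite. The classes generated by this relation are the cylinders. The vertices and the
cylinders form a tree on which `G` acts acylindrically, so that only the stabilizers `K` of the cylinders
have to be treated; the edge stabilizers of the cylinder are commensurable with some `⟨x⟩`. If `x` is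
balanced, a subgroup of index at most two of `K` consists of elements commuting with powers of `x`; the
quotient of a finitely generated subgroup by the central group `⟨t⟩`, `t` a power of `x`, acts on a
tree with finite edge stabilizers and so it is in `C`, and central extensions of it by `⟨t⟩` are in `C`.
Otherwise let `K'` be the group of the elements of `K ∩ L` which commute with powers of `x`, `H` the
group generated by its vertex stabilizers and `D = [H, H]`. Rational characters of the vertex
stabilizers extend along a transversal of the tree, and so the intersections of `D` with the edge
stabilizers are finite. The group `K / D` is in `C`, as an extension by the abelian group `H / D` of a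
group acting on a tree with a homomorphism to `K / K'` injective on stabilizers. By the extension
criterion one is reduced to groups acting on the tree with a homomorphism to a virtually cyclic group
that has finite kernels on the edge stabilizers, and these are covered by the first case.
-/

set_option autoImplicit false

namespace Pool.Agent.Results.MP_63c928_gt.VirtuallyCyclicEdgeGroups

open Pool.Agent.Y110.FJ (ClosedE)
open Pool.Agent.N509.TX (AcylF Er Et Inf Bl Hd VC)

/-- virtually cyclic edge stabilizers have the required properties -/
theorem virtually_cyclic {G V : Type} [Group G] [MulAction G V] {u v : V}
    (h : VC ↥(MulAction.stabilizer G u ⊓ MulAction.stabilizer G v)) :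
    Er G u v ∧ ∃ n : ℕ, Et G n u v :=
  Pool.Agent.N509.TX.vc_edge h

theorem result (C : ∀ (G : Type) [Group G], Prop) (hC : ClosedE C)
    (hM : ∀ (G : Type) [Group G], derivedSeries G 2 = ⊥ → C G) (hA : AcylF C)
    {G V : Type} [Group G] [MulAction G V] (T : SimpleGraph V) (hT : T.IsTree)
    (hact : ∀ (g : G) (u v : V), T.Adj u v → T.Adj (g • u) (g • v))
    (L : Subgroup G) [L.Normal] (hQ : C (G ⧸ L))
    (hV : ∀ v : V, C ↥(MulAction.stabilizer G v))
    (hEr : ∀ u v : V, T.Adj u v → Er G u v)
    (hEt : ∀ u v : V, T.Adj u v → ∃ n : ℕ, Et G n u v)
    (hx : ∀ v u : V, T.Adj v u → ∀ x : G, x • v = v → x • u = u → Inf x →
      Bl C T x ∨ Hd T L x) : C G :=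
  Pool.Agent.N509.TX.xi hC hM hA hT hact L hQ hV hEr hEt hx

end Pool.Agent.Results.MP_63c928_gt.VirtuallyCyclicEdgeGroups
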